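import Pool.Agent.Helper97.Speed.Markov

/-! # From coded walks to simple random walk (task 78, W3) -/

namespace Pool.Agent.Helper97.Speed

open MeasureTheory Filter Topology ENNReal PMap

variable {α : ℝ} {P : Measure HalfPlane}

theorem speed_of_coded (hP : IsHalfPlaneLaw α P) (s : ℝ)
    (h : ∀ᵐ p ∂law P [], Tendsto (fun n : ℕ => (p.1.1.dist (xx [] p 0) (xx [] p n) : ℝ) / n)
      atTop (𝓝 s)) :
    ∀ᵐ h ∂P, ∀ μ : Measure (ℕ → ℕ), IsProbabilityMeasure μ → IsSRW h.1 (h.1.org (h.1.bd 0)) μ →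
      ∀ᵐ x ∂μ, Tendsto (fun n : ℕ => (h.1.dist (h.1.org (h.1.bd 0)) (x n) : ℝ) / n)
        atTop (𝓝 s) := by
  have := hP.prob
  have h1 := Measure.ae_ae_of_ae_compProd h
  filter_upwards [h1] with g hg μ hμ hsrw
  rw [srw_map g.2 μ hsrw]
  have hms : MeasurableSet {x : ℕ → ℕ |
      Tendsto (fun n : ℕ => (g.1.dist (g.1.org (g.1.bd 0)) (x n) : ℝ) / n) atTop (𝓝 s)} := by
    refine measurableSet_tendsto _ fun n => ?_
    have h2 : Measurable (fun k : ℕ => (g.1.dist (g.1.org (g.1.bd 0)) k : ℝ) / n) :=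
      measurable_of_countable _
    exact h2.comp (measurable_pi_apply n)
  rw [ae_map_iff (measurable_pos g.1 (g.1.bd 0)).aemeasurable hms]
  exact hg

end Pool.Agent.Helper97.Speed
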